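import Pool.Agent.Work.MP_417230_al.U.Assembly
import Pool.Agent.Work.MP_417230_al.U.PeterWeyl

set_option autoImplicit false

/-!
# Complete locally minimal abelian groups are feathered

`G` is a Hausdorff abelian topological group in an arbitrary universe, with its topology only (no
uniform structure is chosen). Completeness is the convergence of the Cauchy filters of the group,
local minimality is quantified over all coarser Hausdorff group topologies, feathered means that
there is a compact subgroup with metrizable quotient.
-/

namespace Pool.Agent.Results.MP_417230_al.CompleteLocallyMinimal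

open Topology Filter

universe u

/-- Every Cauchy filter of the group converges: `F` is Cauchy if `y - x` is small for `x`, `y` in
small members of `F`. -/
def GroupComplete (G : Type u) [AddCommGroup G] [TopologicalSpace G] : Prop :=
  ∀ F : Filter G, F.NeBot → Tendsto (fun p : G × G => p.2 - p.1) (F ×ˢ F) (𝓝 0) →
    ∃ x : G, F ≤ 𝓝 x

/-- Local minimality: some neighbourhood `V` of `0` is a neighbourhood of `0` in no strictly coarser
Hausdorff group topology. -/
def LocallyMinimal (G : Type u) [AddCommGroup G] [t : TopologicalSpace G] : Prop :=
  ∃ V ∈ 𝓝 (0 : G), ∀ σ : TopologicalSpace G, @IsTopologicalAddGroup G σ _ → @T2Space G σ →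
    t ≤ σ → V ∈ @nhds G σ 0 → σ = t

/-- Feathered: a compact subgroup has a metrizable quotient. -/
def Feathered (G : Type u) [AddCommGroup G] [TopologicalSpace G] : Prop :=
  ∃ K : AddSubgroup G, IsCompact (K : Set G) ∧ TopologicalSpace.MetrizableSpace (G ⧸ K)

theorem result (G : Type u) [AddCommGroup G] [TopologicalSpace G] [IsTopologicalAddGroup G]
    [T2Space G] (hc : GroupComplete G) (hm : LocallyMinimal G) : Feathered G := by
  let _ : UniformSpace G := IsTopologicalAddGroup.rightUniformSpace G
  have : IsUniformAddGroup G := isUniformAddGroup_of_addCommGroup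
  have : CompleteSpace G := by
    refine ⟨fun {F} hF => ?_⟩
    have hne : F.NeBot := hF.1
    refine hc F hne ?_
    have h := hF.2
    rw [uniformity_eq_comap_nhds_zero G] at h
    exact tendsto_iff_comap.2 h
  obtain ⟨V, hV, hLM⟩ := hm
  refine Pool.Agent.Work.MP_417230_al.U.main_of_PW hV hLM ?_
  intro K hK x hx
  have : CompactSpace K := isCompact_iff_compactSpace.1 hK
  exact Pool.Agent.Work.MP_417230_al.U.chars_separate hx

end Pool.Agent.Results.MP_417230_al.CompleteLocallyMinimal
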